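import Mathlib

namespace Pool.Agent.Results.MP_c7e24e_co.Locked

open Finset

variable {V : Type} [Fintype V] [DecidableEq V]

/-- `P` is a connected `k`-partition balanced with slack `s`. -/
def IsBCP (G : SimpleGraph V) (k : ℕ) (s : ℝ) (P : Finset (Finset V)) : Prop :=
  P.card = k ∧ (∀ v, ∃! U, U ∈ P ∧ v ∈ U) ∧
    ∀ U ∈ P, (G.induce (U : Set V)).Connected ∧ |(U.card : ℝ) - (Fintype.card V : ℝ) / k| ≤ s

/-- Two districts are merged and re-split, all other districts stay. -/
def Recomb (P Q : Finset (Finset V)) : Prop :=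
  P ≠ Q ∧ ∃ A ∈ P, ∃ B ∈ P, ∃ C ∈ Q, ∃ D ∈ Q, A ≠ B ∧ C ≠ D ∧ A ∪ B = C ∪ D ∧
    P \ {A, B} = Q \ {C, D}

def Biconnected (G : SimpleGraph V) : Prop :=
  G.Connected ∧ 3 ≤ Fintype.card V ∧ ∀ v, (G.induce ({v}ᶜ : Set V)).Connected

def e1 (l : ℕ) : ℕ := [0, 1, 2, 0, 0, 1, 1, 2, 2].getD (l - 5) 3
def e2 (l : ℕ) : ℕ := [1, 2, 0, 3, 4, 3, 4, 3, 4].getD (l - 5) 4

/-- Vertices 0..4 are hubs, every vertex `l >= 5` is joined exactly to `e1 l` and `e2 l`. -/
def G0 : SimpleGraph (Fin 30) :=
  SimpleGraph.fromRel (fun l h => 5 ≤ l.val ∧ (h.val = e1 l.val ∨ h.val = e2 l.val))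

instance : DecidableRel G0.Adj := fun a b =>
  decidable_of_iff (a.val ≠ b.val ∧ ((5 ≤ a.val ∧ (b.val = e1 a.val ∨ b.val = e2 a.val)) ∨
    (5 ≤ b.val ∧ (a.val = e1 b.val ∨ a.val = e2 b.val)))) (by
      simp only [G0, SimpleGraph.fromRel_adj, ne_eq, Fin.ext_iff])

def cP (v : Fin 30) : Fin 30 := Fin.ofNat 30
  ([0, 1, 2, 3, 4, 0, 1, 2, 0, 0, 1, 1, 2, 2, 3, 3, 3, 4, 4, 4].getD v.val v.val)
def cQ (v : Fin 30) : Fin 30 := Fin.ofNat 30
  ([0, 1, 2, 3, 4, 1, 2, 0, 0, 0, 1, 1, 2, 2, 3, 3, 3, 4, 4, 4].getD v.val v.val)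

def parts (c : Fin 30 → Fin 30) : Finset (Finset (Fin 30)) :=
  (univ.filter (fun h => c h = h)).image (fun h => univ.filter (fun v => c v = h))

def parT : List ℕ := [138120744455415472360479250400569580840923456,
  138120744455415472360479250508515166730170376,
  138120744455415472360479324187405069437731144,
  184160992607220629813972380845548318209619305,
  138120744455415472360479250400428774584856904,
  138120744455415472360479250400428774599536968,
  138120744455415472360479250400428773525795144,
  138120744455415472360479250400428774599536968,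
  138120744455415472360479250400566282306040133,
  138120744455415472360479250400428774599536968,
  138120744455415472360479250505137467009642664,
  138120744455415472360479250364399977580573000,
  138120744455415472360479320728640555617197384,
  138120744455415472360479176613452479761330504,
  138120744455415472360475708625566622366675272,
  138120744455415472360365913604839903114408264,
  138120744455415472356852472941584887075418440,
  138120744455415472244422371717424373827744072,
  138120744455415468646659132544287949902164296,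
  138120744455415353518235479003922384283611464,
  138120744455411669408678565712224284489920840,
  138120744455293777902857340377885091091820872,
  138120744451521249716578129679030902352621896,
  138120744330800347755643387315696862698254664,
  138120740467731485005731631689007593758503240,
  138120616849527877008555451634950987686457672,
  138116661067012421098917689905139593380999496,
  137990076026517831990509314551174975606337864,
  133939354730690980521441303224307206817165640,
  4316273264231733511264940764538605563654472]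
def rkT : List ℕ := [46040248151805157453493169647797720051615808,
  46040248151805157453493169647797720051615746,
  46040248151805157453493169647797720051613762,
  46040248151805157453493098096790470479841346,
  46040248151805157453493169647797720049518658,
  46040248151805157453493169647797719950952514,
  46040248151805157453493169647797716830390338,
  46040248151805157453493169647797616972400706,
  46040248151805157453493169647796620539988036,
  46040248151805157453493169647692166935349314,
  46040248151805157453493169646671820144773250,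
  46040248151805157453493169539711328994723906,
  46040248151805157453493168494876215444770882,
  46040248151805157453493058967333277794306114,
  46040248151805157453491989056177002640312386,
  46040248151805157453455390715934762889906242,
  46040248151805157452284243828183090876909634,
  46040248151805157414807543420129586461018178,
  46040248151805156215553130362417445152491586,
  46040248151805117839411912515628923279640642,
  46040248151803889802892941418396223348410434,
  46040248151764592634285866306949825549043778,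
  46040248150507083238859462740665095969310786,
  46040248110266782585214548619553749417855042,
  46040246822577161668577296743990659771271234,
  46040205616509292336185236725971791080589378,
  46038887022337473699639316149367992978769986,
  45996692008839277330169857698046453720549442,
  44646451576896993507147187255757197457492034,
  1438757754743911170421733102500997039654978]
def par (v u : Fin 30) : Fin 30 := Fin.ofNat 30 (parT.getD v.val 0 / 32 ^ u.val % 32)
def rk (v u : Fin 30) : ℕ := rkT.getD v.val 0 / 32 ^ u.val % 32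
def root (v : Fin 30) : Fin 30 := if v = 3 then 4 else 3

lemma cert : ∀ v u : Fin 30, u ≠ v → u = root v ∨
    (par v u ≠ v ∧ G0.Adj u (par v u) ∧ rk v (par v u) < rk v u) := by decide +kernel

lemma conn_del (v : Fin 30) : (G0.induce ({v}ᶜ : Set (Fin 30))).Connected := by
  have hr : root v ∈ ({v}ᶜ : Set (Fin 30)) := by
    revert v; decide
  have key : ∀ m (u : ({v}ᶜ : Set (Fin 30))), rk v u.1 < m →
      (G0.induce ({v}ᶜ : Set (Fin 30))).Reachable u ⟨_, hr⟩ := by
    intro m
    induction m with
    | zero => intro u h; omega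
    | succ m ih =>
      intro u h
      rcases cert v u.1 u.2 with h1 | ⟨h1, h2, h3⟩
      · have : u = ⟨_, hr⟩ := Subtype.ext h1
        rw [this]
      · have ha : (G0.induce ({v}ᶜ : Set (Fin 30))).Adj u ⟨par v u.1, h1⟩ := h2
        exact ha.reachable.trans (ih ⟨_, h1⟩ (by simp only; omega))
  have : Nonempty ({v}ᶜ : Set (Fin 30)) := ⟨⟨_, hr⟩⟩
  exact ⟨fun a b => (key _ a (Nat.lt_succ_self _)).trans (key _ b (Nat.lt_succ_self _)).symm⟩

lemma bic : Biconnected G0 := by
  refine ⟨?_, by simp, conn_del⟩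
  have h : ∀ u : Fin 30, u ≠ 29 → G0.Reachable u 3 := fun u hu =>
    ((conn_del 29).preconnected ⟨u, hu⟩ ⟨3, by decide⟩).map (SimpleGraph.Embedding.induce _).toHom
  have h2 : ∀ u : Fin 30, G0.Reachable u 3 := fun u => by
    by_cases hu : u = 29
    · subst hu; exact SimpleGraph.Adj.reachable (by decide)
    · exact h u hu
  exact ⟨fun a b => (h2 a).trans (h2 b).symm⟩

lemma star_conn (U : Finset (Fin 30)) (h : ∃ c ∈ U, ∀ v ∈ U, v = c ∨ G0.Adj v c) :
    (G0.induce (U : Set (Fin 30))).Connected := by
  obtain ⟨c, hc, h⟩ := h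
  have key : ∀ u : (U : Set (Fin 30)), (G0.induce (U : Set (Fin 30))).Reachable u ⟨c, hc⟩ := by
    intro u
    rcases h u.1 u.2 with h1 | h1
    · have : u = ⟨c, hc⟩ := Subtype.ext h1
      rw [this]
    · exact SimpleGraph.Adj.reachable (show (G0.induce (U : Set (Fin 30))).Adj u ⟨c, hc⟩ from h1)
  have : Nonempty (U : Set (Fin 30)) := ⟨⟨c, hc⟩⟩
  exact ⟨fun a b => (key a).trans (key b).symm⟩

lemma bcp_of (c : Fin 30 → Fin 30) (h1 : (univ.filter (fun h => c h = h)).card = 15)
    (h2 : ∀ v, c (c v) = c v) (h3 : ∀ v, v = c v ∨ G0.Adj v (c v))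
    (h4 : ∀ h, (univ.filter (fun v => c v = h)).card ≤ 4) : IsBCP G0 15 2 (parts c) := by
  refine ⟨?_, fun v => ?_, fun U hU => ?_⟩
  · rw [parts, card_image_of_injOn, h1]
    intro a ha b _ hab
    have : a ∈ univ.filter (fun v => c v = b) := by
      have e : univ.filter (fun v => c v = a) = univ.filter (fun v => c v = b) := hab
      rw [← e]; simpa using ha
    have h5 : c a = b := by simpa using this
    have h6 : c a = a := by simpa using ha
    rw [← h5, h6]
  · refine ⟨univ.filter (fun u => c u = c v), ⟨mem_image.2 ⟨c v, by simp [h2], rfl⟩, by simp⟩, ?_⟩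
    rintro W ⟨hW, hv⟩
    obtain ⟨h, _, rfl⟩ := mem_image.1 hW
    have : c v = h := by simpa using hv
    rw [this]
  · obtain ⟨h, hh, rfl⟩ := mem_image.1 hU
    refine ⟨star_conn _ ⟨h, by simpa using hh, fun v hv => ?_⟩, ?_⟩
    · have : c v = h := by simpa using hv
      rw [← this]; exact h3 v
    · have : ((univ.filter (fun v => c v = h)).card : ℝ) ≤ 4 := by exact_mod_cast h4 h
      have h0 : (0 : ℝ) ≤ (univ.filter (fun v => c v = h)).card := by positivity
      simp only [Fintype.card_fin]
      rw [abs_le]; constructor <;> push_cast <;> linarith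

lemma nbr {U : Finset (Fin 30)} (hc : (G0.induce (U : Set (Fin 30))).Connected) {a b : Fin 30}
    (ha : a ∈ U) (hb : b ∈ U) (hab : a ≠ b) : ∃ c ∈ U, G0.Adj a c := by
  obtain ⟨w⟩ := hc.preconnected ⟨a, ha⟩ ⟨b, hb⟩
  cases hw : w with
  | nil => exact absurd rfl hab
  | cons h _ => exact ⟨_, Subtype.property _, h⟩

lemma leafadj : ∀ a c : Fin 30, G0.Adj a c → a.val < 5 ∨ c.val < 5 := by decide +kernel
lemma hubadj : ∀ a c : Fin 30, G0.Adj a c → a.val < 5 → 5 ≤ c.val := by decide +kernel

lemma hubs {P : Finset (Finset (Fin 30))} (hP : IsBCP G0 15 2 P) :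
    ∀ h : Fin 30, h.val < 5 → ∃ U ∈ P, h ∈ U ∧ U.card = 4 ∧ ∀ v ∈ U, v = h ∨ G0.Adj v h := by
  obtain ⟨h1, h2, h3⟩ := hP
  choose f hf hu using h2
  have hle : ∀ U ∈ P, U.card ≤ 4 := by
    intro U hU
    have := (abs_le.1 (h3 U hU).2).2
    simp only [Fintype.card_fin] at this
    have h4 : (U.card : ℝ) ≤ 4 := by push_cast at this; linarith
    exact_mod_cast h4
  have hsum : ∑ U ∈ P, U.card = 30 := by
    have := card_eq_sum_card_fiberwise (s := (univ : Finset (Fin 30))) (t := P) (f := f)
      (fun v _ => (hf v).1)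
    simp only [card_univ, Fintype.card_fin] at this
    refine Eq.trans ?_ this.symm
    refine sum_congr rfl fun U hU => ?_
    congr 1
    ext v
    simp only [mem_filter, mem_univ, true_and]
    exact ⟨fun h => (hu v U ⟨hU, h⟩).symm, fun h => h ▸ (hf v).2⟩
  set H : Finset (Fin 30) := univ.filter (fun v => v.val < 5) with hH
  have hHc : H.card = 5 := by decide
  set T := H.image f with hT
  have hTP : T ⊆ P := by
    intro U hU
    obtain ⟨v, _, rfl⟩ := mem_image.1 hU
    exact (hf v).1
  have hone : ∀ U ∈ P \ T, U.card ≤ 1 := by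
    intro U hU
    rw [mem_sdiff] at hU
    have nh : ∀ v ∈ U, ¬ v.val < 5 := fun v hv h5 =>
      hU.2 (mem_image.2 ⟨v, by simp [hH, h5], (hu v U ⟨hU.1, hv⟩).symm⟩)
    rw [card_le_one]
    intro a ha b hb
    by_contra hab
    obtain ⟨c, hc, hac⟩ := nbr (h3 U hU.1).1 ha hb hab
    rcases leafadj a c hac with h | h
    · exact nh a ha h
    · exact nh c hc h
  have hs2 := sum_sdiff (f := fun U : Finset (Fin 30) => U.card) hTP
  have b1 : ∑ U ∈ P \ T, U.card ≤ (P \ T).card * 1 := sum_le_card_nsmul _ _ _ hone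
  have b2 : ∑ U ∈ T, U.card ≤ T.card * 4 := sum_le_card_nsmul _ _ _ (fun U hU => hle U (hTP hU))
  have b3 : (P \ T).card + T.card = 15 := by rw [card_sdiff_add_card_eq_card hTP, h1]
  have b4 : T.card ≤ 5 := hHc ▸ card_image_le
  have b5 : T.card = 5 := by omega
  have hinj : Set.InjOn f H := by
    rw [← card_image_iff]; rw [hHc]; exact b5
  have h4 : ∀ U ∈ T, U.card = 4 := by
    by_contra hcon
    push Not at hcon
    obtain ⟨U, hU, hne⟩ := hcon
    have : ∑ U ∈ T, U.card < ∑ U ∈ T, 4 :=
      sum_lt_sum (fun W hW => hle W (hTP hW)) ⟨U, hU, lt_of_le_of_ne (hle U (hTP hU)) hne⟩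
    simp only [sum_const, smul_eq_mul] at this
    omega
  intro h h5
  have hh : h ∈ H := by simp [hH, h5]
  refine ⟨f h, (hf h).1, (hf h).2, h4 _ (mem_image_of_mem f hh), fun v hv => ?_⟩
  have only : ∀ c ∈ f h, c.val < 5 → c = h := fun c hc c5 =>
    hinj (by simp [hH, c5]) hh (hu c (f h) ⟨(hf h).1, hc⟩).symm
  by_cases hvh : v = h
  · exact Or.inl hvh
  · right
    obtain ⟨c, hc, hvc⟩ := nbr (h3 _ (hf h).1).1 hv (hf h).2 hvh
    rcases leafadj v c hvc with h6 | h6
    · exact absurd (only v hv h6) hvh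
    · rw [← only c hc h6]; exact hvc

def Same (P : Finset (Finset (Fin 30))) (a b : Fin 30) : Prop := ∃ U ∈ P, a ∈ U ∧ b ∈ U

lemma uniq {P : Finset (Finset (Fin 30))} (hP : IsBCP G0 15 2 P) {U W : Finset (Fin 30)}
    {v : Fin 30} (hU : U ∈ P) (hW : W ∈ P) (a : v ∈ U) (b : v ∈ W) : U = W := by
  obtain ⟨Z, _, hZ⟩ := hP.2.1 v
  exact (hZ U ⟨hU, a⟩).trans (hZ W ⟨hW, b⟩).symm

lemma nohub {P : Finset (Finset (Fin 30))} (hP : IsBCP G0 15 2 P) {U : Finset (Fin 30)}
    {a b : Fin 30} (hU : U ∈ P) (ha : a ∈ U) (hb : b ∈ U) (a5 : a.val < 5) (b5 : b.val < 5) :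
    a = b := by
  obtain ⟨W, w1, w2, _, w4⟩ := hubs hP b b5
  rcases w4 a (uniq hP hU w1 hb w2 ▸ ha) with h | h
  · exact h
  · have := hubadj a b h a5
    omega

lemma either {P : Finset (Finset (Fin 30))} (hP : IsBCP G0 15 2 P) (h x y z t : Fin 30)
    (h5 : h.val < 5) (hn : ∀ v, G0.Adj v h → v = x ∨ v = y ∨ v = z ∨ v = t) :
    Same P h x ∨ Same P h y := by
  obtain ⟨W, w1, w2, w3, w4⟩ := hubs hP h h5
  by_contra hcon
  push Not at hcon
  have hx : x ∉ W := fun e => hcon.1 ⟨W, w1, w2, e⟩
  have hy : y ∉ W := fun e => hcon.2 ⟨W, w1, w2, e⟩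
  have : W ⊆ {h, z, t} := by
    intro v hv
    simp only [mem_insert, mem_singleton]
    rcases w4 v hv with e | e
    · exact Or.inl e
    · rcases hn v e with rfl | rfl | rfl | rfl
      · exact absurd hv hx
      · exact absurd hv hy
      · exact Or.inr (Or.inl rfl)
      · exact Or.inr (Or.inr rfl)
  have h1 := card_le_card this
  have h2 : ({h, z, t} : Finset (Fin 30)).card ≤ 3 := card_le_three
  omega

lemma notboth {P : Finset (Finset (Fin 30))} (hP : IsBCP G0 15 2 P) {a b x : Fin 30}
    (a5 : a.val < 5) (b5 : b.val < 5) (h1 : Same P a x) (h2 : Same P b x) : a = b := by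
  obtain ⟨U, u1, u2, u3⟩ := h1
  obtain ⟨W, w1, w2, w3⟩ := h2
  exact nohub hP u1 u2 (uniq hP u1 w1 u3 w3 ▸ w2) a5 b5

def Inv (P : Finset (Finset (Fin 30))) : Prop := Same P 0 5 ∧ Same P 1 6 ∧ Same P 2 7

lemma dich {P : Finset (Finset (Fin 30))} (hP : IsBCP G0 15 2 P) :
    Inv P ∨ (Same P 0 7 ∧ Same P 1 5 ∧ Same P 2 6) := by
  have e0 := either hP 0 5 7 8 9 (by decide) (by decide +kernel)
  have e1 := either hP 1 5 6 10 11 (by decide) (by decide +kernel)
  have e2 := either hP 2 6 7 12 13 (by decide) (by decide +kernel)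
  have n1 : ¬ (Same P 0 5 ∧ Same P 1 5) := fun h =>
    absurd (notboth hP (by decide) (by decide) h.1 h.2) (by decide)
  have n2 : ¬ (Same P 1 6 ∧ Same P 2 6) := fun h =>
    absurd (notboth hP (by decide) (by decide) h.1 h.2) (by decide)
  have n3 : ¬ (Same P 0 7 ∧ Same P 2 7) := fun h =>
    absurd (notboth hP (by decide) (by decide) h.1 h.2) (by decide)
  unfold Inv
  tauto

lemma inv_step {P Q : Finset (Finset (Fin 30))} (hP : IsBCP G0 15 2 P) (hQ : IsBCP G0 15 2 Q)
    (hm : Recomb P Q) (hI : Inv P) : Inv Q := by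
  rcases dich hQ with h | ⟨q1, q2, q3⟩
  · exact h
  exfalso
  obtain ⟨_, A, _, B, _, C, _, D, _, _, _, _, he⟩ := hm
  have key : ∀ U ∈ P, ∀ a b x : Fin 30, a.val < 5 → b.val < 5 → a ≠ b → a ∈ U → x ∈ U →
      Same Q b x → U = A ∨ U = B := by
    intro U hU a b x a5 b5 hab ha hx hs
    by_contra hcon
    have : U ∈ Q \ {C, D} := by
      rw [← he]; simp only [mem_sdiff, mem_insert, mem_singleton]; exact ⟨hU, hcon⟩
    exact hab (notboth hQ a5 b5 ⟨U, (mem_sdiff.1 this).1, ha, hx⟩ hs)
  obtain ⟨⟨U0, a1, a2, a3⟩, ⟨U1, b1, b2, b3⟩, ⟨U2, c1, c2, c3⟩⟩ := hI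
  have k1 := key U0 a1 0 1 5 (by decide) (by decide) (by decide) a2 a3 q2
  have k2 := key U1 b1 1 2 6 (by decide) (by decide) (by decide) b2 b3 q3
  have k3 := key U2 c1 2 0 7 (by decide) (by decide) (by decide) c2 c3 q1
  have d01 : U0 ≠ U1 := fun e =>
    absurd (nohub hP a1 a2 (e ▸ b2) (by decide) (by decide)) (by decide)
  have d02 : U0 ≠ U2 := fun e =>
    absurd (nohub hP a1 a2 (e ▸ c2) (by decide) (by decide)) (by decide)
  have d12 : U1 ≠ U2 := fun e =>
    absurd (nohub hP b1 b2 (e ▸ c2) (by decide) (by decide)) (by decide)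
  rcases k1 with h1 | h1 <;> rcases k2 with h2 | h2 <;> rcases k3 with h3 | h3 <;>
    first
    | exact d01 (h1.trans h2.symm)
    | exact d02 (h1.trans h3.symm)
    | exact d12 (h2.trans h3.symm)

lemma same_of (c : Fin 30 → Fin 30) (a b : Fin 30) (h1 : c a = a) (h2 : c b = a) :
    Same (parts c) a b :=
  ⟨_, mem_image.2 ⟨a, by simp [h1], rfl⟩, by simp [h1], by simp [h2]⟩

theorem result : ∃ (n k : ℕ) (s : ℝ) (G : SimpleGraph (Fin n)) (P Q : Finset (Finset (Fin n))),
    0 < k ∧ k ∣ n ∧ s = (n : ℝ) / k ∧ Biconnected G ∧ IsBCP G k s P ∧ IsBCP G k s Q ∧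
    ¬ Relation.ReflTransGen (fun X Y => IsBCP G k s X ∧ IsBCP G k s Y ∧ Recomb X Y) P Q := by
  have hQ := bcp_of cQ (by decide +kernel) (by decide +kernel) (by decide +kernel)
    (by decide +kernel)
  refine ⟨30, 15, 2, G0, parts cP, parts cQ, by norm_num, by norm_num, by norm_num, bic,
    bcp_of cP (by decide +kernel) (by decide +kernel) (by decide +kernel) (by decide +kernel),
    hQ, fun h => ?_⟩
  have : Inv (parts cQ) := by
    generalize parts cQ = Q at h
    induction h with
    | refl => exact ⟨same_of cP 0 5 (by decide) (by decide), same_of cP 1 6 (by decide) (by decide),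
        same_of cP 2 7 (by decide) (by decide)⟩
    | tail _ hb ih => exact inv_step hb.1 hb.2.1 hb.2.2 ih
  exact absurd (notboth hQ (by decide) (by decide) this.1 (same_of cQ 1 5 (by decide) (by decide)))
    (by decide)

end Pool.Agent.Results.MP_c7e24e_co.Locked
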